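import Pool.Agent.H5.Dem.Stmts

/-!
# Module H1C: the number of continuous homomorphisms to `F_2`
-/

set_option autoImplicit false

namespace Pool.Agent.H5.Dem

namespace H1Caux

theorem odd_unit : ∀ u : (ZMod 8)ˣ, ((u : ZMod 8).val) % 2 = 1 := by decide

theorem smul_two (u : (ZMod 8)ˣ) (m : ZMod 2) : ((u : ZMod 8).val) • m = m := by
  have h := odd_unit u
  rw [nsmul_eq_mul]
  have h2 : (((u : ZMod 8).val : ℕ) : ZMod 2) = 1 := by
    rw [show (1 : ZMod 2) = ((1 : ℕ) : ZMod 2) by simp, ZMod.natCast_eq_natCast_iff']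
    omega
  rw [h2, one_mul]

theorem eight (m : ZMod 2) : 8 • m = 0 := by
  revert m
  decide

end H1Caux

theorem h1c (hE : EULStmt) (hC : CHI0Stmt) : H1CStmt := by
  intro G _ _ x y z hG U hU
  obtain ⟨χ, hχ⟩ := hC G x y z hG
  have h := hE G x y z hG χ hχ U hU (ZMod 2) (1 : U →* Au (ZMod 2)) H1Caux.eight (by
    have : (((1 : U →* Au (ZMod 2)).ker : Subgroup U) : Set U) = Set.univ := by
      ext g
      simp
    rw [this]
    exact isOpen_univ)
  have h1 : Nat.card (Z1 (1 : U →* Au (ZMod 2))) = Nat.card (H1 2 U) := by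
    refine Nat.card_congr ⟨fun c => ⟨c.1, c.2.1, fun g k => c.2.2 g k⟩,
      fun c => ⟨c.1, c.2.1, fun g k => c.2.2 g k⟩, fun c => rfl, fun c => rfl⟩
  have h2 : JJ (1 : U →* Au (ZMod 2)) (χ.comp U.subtype) = Set.univ := by
    ext ψ
    simp only [JJ, Set.mem_ofPred_eq, Set.mem_univ, iff_true]
    intro u m
    rw [H1Caux.smul_two]
    rfl
  have h3 : Nat.card (JJ (1 : U →* Au (ZMod 2)) (χ.comp U.subtype)) = 2 := by
    rw [h2, Nat.card_congr (Equiv.Set.univ _), Nat.card_eq_fintype_card, AddChar.card_eq]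
    rfl
  rw [← h1, h, h3]
  have h4 : Nat.card (ZMod 2) = 2 := by simp
  rw [h4, pow_succ 2 (U.index + 1)]

end Pool.Agent.H5.Dem
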