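import Pool.Agent.H5.Dem.Stmts

/-!
# Module IND: the induced module
-/

set_option autoImplicit false

namespace Pool.Agent.H5.Dem

namespace INDaux

variable {G : Type} [Group G] (U : Subgroup G) {M : Type} [AddCommGroup M] (ρ : U →* Au M)

/-- The chosen representative of the right coset of `g`. -/
noncomputable def rp (g : G) : G :=
  Quotient.out (Quotient.mk (QuotientGroup.rightRel U) g)

theorem rp_mem (g : G) : g * (rp U g)⁻¹ ∈ U := by
  have h : (QuotientGroup.rightRel U).r (rp U g) g := Quotient.exact (Quotient.out_eq _)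
  exact QuotientGroup.rightRel_apply.1 h

theorem mk_mul (u : U) (g : G) : (Quotient.mk (QuotientGroup.rightRel U) ((u : G) * g)) =
    Quotient.mk (QuotientGroup.rightRel U) g := by
  apply Quotient.sound
  change (QuotientGroup.rightRel U).r _ _
  rw [QuotientGroup.rightRel_apply]
  have : g * ((u : G) * g)⁻¹ = ((u⁻¹ : U) : G) := by simp
  rw [this]
  exact (u⁻¹).2

theorem rp_mul (u : U) (g : G) : rp U ((u : G) * g) = rp U g := by
  unfold rp
  rw [mk_mul]

/-- Functions on the cosets give elements of the induced module. -/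
noncomputable def eqv : Ind U ρ ≃ (Quotient (QuotientGroup.rightRel U) → M) where
  toFun f q := f.1 (Quotient.out q)
  invFun F := ⟨fun g => ρ ⟨g * (rp U g)⁻¹, rp_mem U g⟩ (F (Quotient.mk _ g)), by
    intro u g
    have h1 : (⟨(u : G) * g * (rp U ((u : G) * g))⁻¹, rp_mem U _⟩ : U) =
        u * ⟨g * (rp U g)⁻¹, rp_mem U g⟩ := by
      apply Subtype.ext
      simp only [rp_mul, Subgroup.coe_mul, mul_assoc]
    simp only
    rw [h1, mk_mul, map_mul]
    rfl⟩
  left_inv f := by
    apply Subtype.ext
    funext g
    simp only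
    have h := f.2 ⟨g * (rp U g)⁻¹, rp_mem U g⟩ (rp U g)
    have h2 : ((⟨g * (rp U g)⁻¹, rp_mem U g⟩ : U) : G) * rp U g = g := by simp
    rw [h2] at h
    exact h.symm
  right_inv F := by
    funext q
    simp only
    have h1 : Quotient.mk (QuotientGroup.rightRel U) (Quotient.out q) = q := Quotient.out_eq q
    have h2 : rp U (Quotient.out q) = Quotient.out q := by
      unfold rp
      rw [h1]
    have h3 : (⟨Quotient.out q * (rp U (Quotient.out q))⁻¹, rp_mem U _⟩ : U) = 1 := by
      apply Subtype.ext
      change Quotient.out q * (rp U (Quotient.out q))⁻¹ = 1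
      rw [h2]
      simp
    rw [h3, h1, map_one]
    rfl

end INDaux

theorem ind : INDStmt := by
  intro G _ _ hG U hU M _ _ ρ hρ
  have := hG.topGroup
  have := hG.compact
  have hfin : Finite (G ⧸ U) := Subgroup.quotient_finite_of_isOpen U hU
  have : Finite (Quotient (QuotientGroup.rightRel U)) :=
    Finite.of_equiv _ (QuotientGroup.quotientRightRelEquivQuotientLeftRel U).symm
  refine ⟨?_, ?_⟩
  · rw [Nat.card_congr (INDaux.eqv U ρ), Nat.card_fun,
      Nat.card_congr (QuotientGroup.quotientRightRelEquivQuotientLeftRel U)]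
    rfl
  · -- the image of the kernel of `ρ`
    set K : Subgroup G := ρ.ker.map U.subtype with hK
    have hKo : IsOpen (K : Set G) := by
      have : (K : Set G) = (Subtype.val : U → G) '' (ρ.ker : Set U) := by
        ext g
        simp [hK]
      rw [this]
      exact hU.isOpenMap_subtype_val _ hρ
    have : Finite (G ⧸ K) := Subgroup.quotient_finite_of_isOpen K hKo
    have : K.FiniteIndex := Subgroup.finiteIndex_of_finite_quotient
    have hKc : IsClosed (K : Set G) := Subgroup.isClosed_of_isOpen K hKo
    have hcore : IsOpen (K.normalCore : Set G) :=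
      Subgroup.isOpen_of_isClosed_of_finiteIndex _ (K.normalCore_isClosed hKc)
    refine Subgroup.isOpen_mono ?_ hcore
    intro g hg
    rw [MonoidHom.mem_ker]
    ext f h
    change f.1 (h * g) = f.1 h
    have h1 : h * g * h⁻¹ ∈ K := hg h
    rw [hK, Subgroup.mem_map] at h1
    obtain ⟨u, hu, hu'⟩ := h1
    have h2 := f.2 u h
    have h3 : (u : G) * h = h * g := by
      have : (u : G) = h * g * h⁻¹ := hu'
      rw [this]
      simp
    rw [h3, MonoidHom.mem_ker.1 hu] at h2
    exact h2

end Pool.Agent.H5.Dem
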